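import Pool.Agent.Lib.helper28.RieszB

set_option autoImplicit false

open MeasureTheory Finset Filter Topology

namespace Pool.Agent.Results.MP_b30265_an.PhaseMatters

/-- `μ` is the Riesz product: the weak-star limit of the partial products times dx/(2π). -/
def IsRiesz (l : ℕ → ℕ) (a : ℕ → ℂ) (φ : ℕ → ℝ) (μ : Measure (AddCircle (2 * Real.pi))) : Prop :=
  IsFiniteMeasure μ ∧ ∀ f : C(AddCircle (2 * Real.pi), ℝ),
    Tendsto (fun N : ℕ => (2 * Real.pi)⁻¹ * ∫ x in (0 : ℝ)..(2 * Real.pi), f (x : AddCircle (2 * Real.pi)) *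
      ∏ n ∈ range N, (1 + (a n * Complex.exp (Complex.I * ((l n : ℝ) * x + φ n : ℝ))).re))
      atTop (𝓝 (∫ x, f x ∂μ))

open H28Riesz AddCircle

theorem isRiesz_of (l : ℕ → ℕ) (a : ℕ → ℂ) (φ : ℕ → ℝ) (μ : Measure TT) [IsProbabilityMeasure μ]
    (c : ℕ → ℂ) (hc : ∀ n, c n = a n * Complex.exp (Complex.I * φ n))
    (h : ∀ f : TT → ℝ, Continuous f →
      Tendsto (fun N => ∫ x, f x * P l c N x ∂haarAddCircle) atTop (𝓝 (∫ x, f x ∂μ))) :
    IsRiesz l a φ μ := by
  refine ⟨inferInstance, fun f => (h f f.continuous).congr (fun N => ?_)⟩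
  rw [integral_haarAddCircle, ← AddCircle.intervalIntegral_preimage _ 0, zero_add, smul_eq_mul]
  congr 2
  funext x
  congr 1
  refine prod_congr rfl (fun n _ => ?_)
  have hpi : (Real.pi : ℂ) ≠ 0 := by exact_mod_cast Real.pi_pos.ne'
  rw [fac, hc, fourier_coe_apply, mul_assoc, ← Complex.exp_add]
  congr 4
  push_cast
  field_simp
  ring

def lam (M : ℕ → ℕ) (n : ℕ) : ℕ := if n % 2 = 0 then M (n / 2) else 3 * M (n / 2)

theorem lam_even (M : ℕ → ℕ) (j : ℕ) : lam M (2 * j) = M j := by simp [lam]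

theorem lam_odd (M : ℕ → ℕ) (j : ℕ) : lam M (2 * j + 1) = 3 * M j := by
  have : (2 * j + 1) / 2 = j := by omega
  simp [lam, this]

theorem lam_sum (M : ℕ → ℕ) (j : ℕ) : ∑ i ∈ range (2 * j), lam M i = 4 * ∑ i ∈ range j, M i := by
  induction j with
  | zero => simp
  | succ j ih =>
    rw [mul_add, mul_one, sum_range_succ, sum_range_succ, ih, lam_even, lam_odd, sum_range_succ]
    ring

theorem fac_dil (k m : ℕ) (c : ℂ) (x : TT) : fac (k * m) c x = fac k c ((m : ℤ) • x) := by
  simp only [fac, fourier_apply, smul_smul]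
  push_cast
  rfl

theorem P_block (M : ℕ → ℕ) (c : ℕ → ℂ) (H : ℕ → TT → ℝ)
    (hH : ∀ i x, H i x = fac 1 (c (2 * i)) x * fac 3 (c (2 * i + 1)) x) (j : ℕ) (x : TT) :
    P (lam M) c (2 * j) x = PP H M j x := by
  induction j with
  | zero => simp [P, PP]
  | succ j ih =>
    unfold P PP at *
    rw [mul_add, mul_one, prod_range_succ, prod_range_succ, ih, lam_even, lam_odd, prod_range_succ,
      hH, ← fac_dil, ← fac_dil, one_mul, mul_assoc]

theorem gap (M : ℕ → ℕ) (hM : ∀ j, 9 * ∑ i ∈ range j, M i + 2 * j < M j) (j d : ℕ)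
    (hd : 2 * d < M j) (n : ℕ) (hn : 2 * j ≤ n) : ∑ i ∈ range n, lam M i + d < lam M n := by
  have hm : ∀ i, j ≤ i → M j ≤ M i := fun i hi => by
    rcases eq_or_lt_of_le hi with rfl | h
    · exact le_rfl
    · have := single_le_sum (f := M) (fun _ _ => Nat.zero_le _) (mem_range.2 h)
      have := hM i
      omega
  obtain ⟨i, rfl | rfl⟩ := Nat.even_or_odd' n
  · have := hm i (by omega)
    have := hM i
    rw [lam_sum, lam_even]; omega
  · have := hm i (by omega)
    have := hM i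
    rw [sum_range_succ, lam_sum, lam_even, lam_odd]; omega

noncomputable def sa (n : ℕ) : ℝ := -(1 - eps (n / 2) ^ 2)
noncomputable def sb (n : ℕ) : ℝ := if n % 2 = 0 then -(1 - 2 * eps (n / 2) ^ 2) else sa n
noncomputable def ph (n : ℕ) : ℝ := if n % 2 = 0 then 0 else Real.pi

theorem sa_lt (n : ℕ) : ‖(sa n : ℂ)‖ < 1 := by
  have := eps_pos (n / 2)
  have := eps_le (n / 2)
  rw [Complex.norm_real, Real.norm_eq_abs, abs_lt, sa]
  constructor <;> nlinarith

theorem sb_lt (n : ℕ) : ‖(sb n : ℂ)‖ < 1 := by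
  unfold sb
  split_ifs
  · have := eps_pos (n / 2)
    have := eps_le (n / 2)
    rw [Complex.norm_real, Real.norm_eq_abs, abs_lt]
    constructor <;> nlinarith
  · exact sa_lt n

theorem result : ∃ (l : ℕ → ℕ) (a b : ℕ → ℂ) (φ : ℕ → ℝ)
    (μa μb μa' μb' : Measure (AddCircle (2 * Real.pi))),
    0 < l 0 ∧ (∀ n, 3 * l n ≤ l (n + 1)) ∧ (∀ n, ‖a n‖ < 1) ∧ (∀ n, ‖b n‖ < 1) ∧
    IsRiesz l a 0 μa ∧ IsRiesz l b 0 μb ∧ IsRiesz l a φ μa' ∧ IsRiesz l b φ μb' ∧
    IsProbabilityMeasure μa ∧ IsProbabilityMeasure μb ∧ IsProbabilityMeasure μa' ∧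
    IsProbabilityMeasure μb' ∧ μa ≪ μb ∧ ¬ μa' ≪ μb' := by
  obtain ⟨M, hM⟩ := exists_M
  have hM1 : ∀ j, 9 * ∑ i ∈ range j, M i + 2 * j < M j := fun j => (hM j).1
  have g0 : ∀ n, ∑ i ∈ range n, lam M i < lam M n := fun n =>
    gap M hM1 0 0 (by have := hM1 0; omega) n (by omega)
  have g1 : ∀ d, ∃ N, ∀ n, N ≤ n → ∑ i ∈ range n, lam M i + d < lam M n := fun d =>
    ⟨2 * d, gap M hM1 d d (by have := hM1 d; omega)⟩
  have h2 : ∀ i, (2 * i + 1) / 2 = i := fun i => by omega
  have hn : ∀ (c : ℂ) (t : ℝ), ‖c‖ < 1 → ‖c * Complex.exp (Complex.I * t)‖ ≤ 1 := fun c t hc => by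
    rw [norm_mul, Complex.norm_exp_I_mul_ofReal, mul_one]; exact hc.le
  obtain ⟨μa, ia, ha⟩ := exists_riesz (T := 2 * Real.pi) (lam M) (fun n => (sa_lt n).le) g0 g1
  obtain ⟨μb, ib, hb⟩ := exists_riesz (T := 2 * Real.pi) (lam M) (fun n => (sb_lt n).le) g0 g1
  obtain ⟨μa', ia', ha'⟩ := exists_riesz (T := 2 * Real.pi) (lam M)
    (fun n => hn _ (ph n) (sa_lt n)) g0 g1
  obtain ⟨μb', ib', hb'⟩ := exists_riesz (T := 2 * Real.pi) (lam M)
    (fun n => hn _ (ph n) (sb_lt n)) g0 g1
  have hsub : Tendsto (fun j : ℕ => 2 * j) atTop atTop :=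
    tendsto_atTop_mono (fun j => by simp only [id]; omega) tendsto_id
  refine ⟨lam M, fun n => sa n, fun n => sb n, ph, μa, μb, μa', μb', g0 0 |>.trans_le' (by simp),
    fun n => ?_, sa_lt, sb_lt, isRiesz_of _ _ _ _ _ (fun n => by simp) ha,
    isRiesz_of _ _ _ _ _ (fun n => by simp) hb, isRiesz_of _ _ _ _ _ (fun n => rfl) ha',
    isRiesz_of _ _ _ _ _ (fun n => rfl) hb', ia, ib, ia', ib', ?_, ?_⟩
  · obtain ⟨i, rfl | rfl⟩ := Nat.even_or_odd' n
    · rw [lam_even, lam_odd]
    · have := hM1 (i + 1)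
      rw [sum_range_succ] at this
      rw [lam_odd, show 2 * i + 1 + 1 = 2 * (i + 1) by ring, lam_even]
      omega
  · have hR : ∀ j, ∫ x, PP (fun i => h1 (eps i)) M j x ∂haarAddCircle ≤
        Real.exp (19 * ∑ i ∈ range j, eps i ^ 4) := fun j => by
      induction j with
      | zero => simp [PP]
      | succ j ih =>
        refine (hM j).2.1.trans ?_
        rw [sum_range_succ, mul_add 19, Real.exp_add]
        exact mul_le_mul ih (by linarith [Real.add_one_le_exp (19 * eps j ^ 4)]) (by positivity)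
          (Real.exp_pos _).le
    refine ac_of μa μb (Real.exp (19 * ∑' i, eps i ^ 4)) (fun f hf hf01 t ht => ?_)
    refine le_of_tendsto_of_tendsto' ((ha f hf).comp hsub)
      ((((hb f hf).comp hsub).div_const t).const_add _) (fun j => ?_)
    have pa := P_block M (fun n => (sa n : ℂ)) (fun i x => ga (eps i) x * wm (eps i) x)
      (fun i x => by simp [ga, wm, sa, h2]) j
    have pb := P_block M (fun n => (sb n : ℂ)) (fun i x => gb (eps i) x * wm (eps i) x)
      (fun i x => by simp [gb, wm, sa, sb, h2]) j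
    have cR := PP_cont (H := fun i => h1 (eps i)) (fun i => h1_cont (eps_pos i) (eps_le i)) M j
    have e1 : ∫ x, f x * P (lam M) (fun n => (sa n : ℂ)) (2 * j) x ∂haarAddCircle ≤
        ∫ x, (t * PP (fun i => h1 (eps i)) M j x
          + f x * P (lam M) (fun n => (sb n : ℂ)) (2 * j) x / t) ∂haarAddCircle := by
      refine integral_mono (intg (by fun_prop) _) (intg (by fun_prop) _) (fun x => ?_)
      have q1 : 0 < P (lam M) (fun n => (sb n : ℂ)) (2 * j) x := by
        rw [pb]
        exact PP_pos (fun i x => mul_pos (gb_pos (eps_pos i) (eps_le i) x)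
          (wm_pos (eps_pos i) (eps_le i) x)) M j x
      have q2 : PP (fun i => h1 (eps i)) M j x = P (lam M) (fun n => (sa n : ℂ)) (2 * j) x ^ 2 /
          P (lam M) (fun n => (sb n : ℂ)) (2 * j) x := by
        rw [pa, pb]; simp only [PP, h1, prod_div_distrib, prod_pow]
      simp only [q2]
      set A := P (lam M) (fun n => (sa n : ℂ)) (2 * j) x
      set B := P (lam M) (fun n => (sb n : ℂ)) (2 * j) x
      have q3 := hf01 x
      have q4 : t * (A ^ 2 / B) + f x * B / t - f x * A =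
          ((t * A - f x * B / 2) ^ 2 + f x * B ^ 2 * (1 - f x / 4)) / (t * B) := by
        field_simp; ring
      have q5 : 0 ≤ ((t * A - f x * B / 2) ^ 2 + f x * B ^ 2 * (1 - f x / 4)) / (t * B) := by
        have : 0 ≤ 1 - f x / 4 := by linarith [q3.2]
        have := q3.1
        positivity
      linarith
    rw [integral_add (intg (by fun_prop) _) (intg (by fun_prop) _), integral_const_mul,
      integral_div] at e1
    have e2 : Real.exp (19 * ∑ i ∈ range j, eps i ^ 4) ≤ Real.exp (19 * ∑' i, eps i ^ 4) :=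
      Real.exp_le_exp.2 (by
        linarith [eps_four.sum_le_tsum (range j) (fun i _ => by have := eps_pos i; positivity)])
    have e3 := mul_le_mul_of_nonneg_left ((hR j).trans e2) ht.le
    simp only [Function.comp]
    linarith
  · have hS : ∀ j, ∫ x, PP (fun i => H28Riesz.h2 (eps i)) M j x ∂haarAddCircle ≤
        Real.exp (-((∑ i ∈ range j, 1 / ((i : ℝ) + 1)) / 51200)) := fun j => by
      induction j with
      | zero => simp [PP]
      | succ j ih =>
        refine (hM j).2.2.1.trans ?_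
        rw [sum_range_succ, add_div, neg_add, Real.exp_add]
        have e3 := eps_three j
        have e4 : eps j ^ 3 ≤ (1 / 4) ^ 3 := pow_le_pow_left₀ (eps_pos j).le (eps_le j) 3
        exact mul_le_mul ih (by linarith [Real.add_one_le_exp (-(1 / ((j : ℝ) + 1) / 51200))])
          (by linarith) (Real.exp_pos _).le
    have hlim : Tendsto (fun j : ℕ => Real.exp (-((∑ i ∈ range j, 1 / ((i : ℝ) + 1)) / 51200))
        + 1 / ((j : ℝ) + 1)) atTop (𝓝 0) := by
      have := (Real.tendsto_exp_neg_atTop_nhds_zero.comp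
        (Real.tendsto_sum_range_one_div_nat_succ_atTop.atTop_div_const
          (by norm_num : (0 : ℝ) < 51200))).add tendsto_one_div_add_atTop_nhds_zero_nat
      simpa using this
    refine not_ac μa' μb' (fun η hη => ?_)
    obtain ⟨j, hj⟩ := (hlim.eventually_le_const hη).exists
    obtain ⟨d, hd, hQ⟩ := (hM j).2.2.2
    have pa := P_block M (fun n => (sa n : ℂ) * Complex.exp (Complex.I * ph n)) Fa
      (fun i x => by simp [Fa, ga, wp, sa, ph, h2, mul_comm Complex.I]) j
    have pb := P_block M (fun n => (sb n : ℂ) * Complex.exp (Complex.I * ph n)) Fb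
      (fun i x => by simp [Fb, gb, wp, sa, sb, ph, h2, mul_comm Complex.I]) j
    have hA := PP_pos Fa_pos M j
    have hB := PP_pos Fb_pos M j
    have cS := PP_cont (H := fun i => H28Riesz.h2 (eps i)) (fun i => h2_cont) M j
    have cA := PP_cont Fa_cont M j
    have cB := PP_cont Fb_cont M j
    have ct := tf_cont M j
    have hpt : ∀ x, tf M j x * PP Fb M j x ≤ PP (fun i => H28Riesz.h2 (eps i)) M j x := fun x => by
      have q1 : PP (fun i => H28Riesz.h2 (eps i)) M j x ^ 2 = PP Fa M j x * PP Fb M j x := by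
        simp only [PP, ← prod_pow, ← prod_mul_distrib]
        refine prod_congr rfl (fun i _ => ?_)
        rw [H28Riesz.h2, mul_pow, Real.sq_sqrt (mul_pos (ga_pos (eps_pos i) (eps_le i) _)
          (gb_pos (eps_pos i) (eps_le i) _)).le, Fa, Fb]
        ring
      have q2 := PP_pos (H := fun i => H28Riesz.h2 (eps i))
        (fun i => h2_pos (eps_pos i) (eps_le i)) M j x
      have q3 : PP (fun i => H28Riesz.h2 (eps i)) M j x ≤ PP Fa M j x + PP Fb M j x :=
        le_of_sq_le_sq (by nlinarith [hA x, hB x]) (add_pos (hA x) (hB x)).le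
      rw [tf, div_mul_eq_mul_div, div_le_iff₀ (add_pos (hA x) (hB x)), ← q1]
      nlinarith
    have i1 : ∫ x, tf M j x * PP Fb M j x ∂haarAddCircle ≤
        ∫ x, PP (fun i => H28Riesz.h2 (eps i)) M j x ∂haarAddCircle :=
      integral_mono (intg (by fun_prop) _) (intg cS _) hpt
    have i2 : ∫ x, tf M j x * PP Fa M j x ∂haarAddCircle =
        1 - ∫ x, tf M j x * PP Fb M j x ∂haarAddCircle := by
      rw [← P_mass (T := 2 * Real.pi) (lam M)
        (fun n => (sa n : ℂ) * Complex.exp (Complex.I * ph n)) g0 (2 * j)]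
      simp only [pa]
      rw [← integral_sub (intg cA _) (intg (by fun_prop) _)]
      congr 1
      funext x
      have := (add_pos (hA x) (hB x)).ne'
      unfold tf
      field_simp
      ring
    have c1 := le_of_tendsto ((ha' _ ct).sub_const _).abs (eventually_atTop.2 ⟨2 * j, P_close (lam M)
      (fun n => hn _ (ph n) (sa_lt n)) g0 _ _ d (2 * j) hQ (gap M hM1 j d hd)⟩)
    have c2 := le_of_tendsto ((hb' _ ct).sub_const _).abs (eventually_atTop.2 ⟨2 * j, P_close (lam M)
      (fun n => hn _ (ph n) (sb_lt n)) g0 _ _ d (2 * j) hQ (gap M hM1 j d hd)⟩)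
    simp only [pa, pb] at c1 c2
    refine ⟨tf M j, ct, fun x => ⟨(div_pos (hA x) (add_pos (hA x) (hB x))).le,
      (div_le_one (add_pos (hA x) (hB x))).2 (by linarith [hB x])⟩, ?_, ?_⟩
    · linarith [(abs_le.1 c1).1, hS j]
    · linarith [(abs_le.1 c2).2, hS j]

end Pool.Agent.Results.MP_b30265_an.PhaseMatters
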